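import Mathlib
import Pool.Agent.ZC.Large

set_option autoImplicit false

namespace Pool.Agent.Results.MP_5f2667_co.LargeModuli

/-- For all sufficiently large `m` (prime or composite) and all `n ≥ n₀(m)` the least number of zero-sum trees
with `m` edges over all `ZMod m`-colourings of `K_n` equals the least number of monochromatic ones over all
2-colourings. -/
theorem result : ∃ m0 : ℕ, ∀ m ≥ m0, ∃ n0 : ℕ, ∀ n ≥ n0,
    (⨅ c : Sym2 (Fin n) → ZMod m,
      Set.ncard {T : SimpleGraph (Fin n) |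
        (∃ U : Finset (Fin n), U.card = m + 1 ∧ (∀ u v, T.Adj u v → u ∈ U) ∧
          (T.induce (U : Set (Fin n))).IsTree) ∧
        ∑ᶠ e ∈ T.edgeSet, c e = 0})
    =
    (⨅ c : Sym2 (Fin n) → Fin 2,
      Set.ncard {T : SimpleGraph (Fin n) |
        (∃ U : Finset (Fin n), U.card = m + 1 ∧ (∀ u v, T.Adj u v → u ∈ U) ∧
          (T.induce (U : Set (Fin n))).IsTree) ∧
        ∃ i : Fin 2, ∀ e ∈ T.edgeSet, c e = i}) :=
  Pool.Agent.ZT.large_all

end Pool.Agent.Results.MP_5f2667_co.LargeModuli
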