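import Mathlib
import Pool.Agent.MP_5f2667_co.L.L20

set_option autoImplicit false

namespace Pool.Agent.Results.MP_5f2667_co.NearTwoColoured

open Classical in
/-- For every `m ≥ 4` there are `ε > 0` and `n₀` such that for `n ≥ n₀` every `ZMod m`-colouring of `K_n`
that uses, up to `ε n²` ordered pairs, only two colours `a`, `b` with `b - a` a unit has at least as many
zero-sum trees with `m` edges as some 2-colouring has monochromatic ones. -/
theorem result (m : ℕ) (hm : 4 ≤ m) : ∃ ε > (0 : ℝ), ∃ n0 : ℕ, ∀ n ≥ n0,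
    ∀ (c : Sym2 (Fin n) → ZMod m) (a b : ZMod m), IsUnit (b - a) →
    ((Finset.univ.filter (fun p : Fin n × Fin n =>
      p.1 ≠ p.2 ∧ c s(p.1, p.2) ≠ a ∧ c s(p.1, p.2) ≠ b)).card : ℝ) ≤ ε * (n : ℝ) ^ 2 →
    (⨅ c' : Sym2 (Fin n) → Fin 2,
      Set.ncard {T : SimpleGraph (Fin n) |
        (∃ U : Finset (Fin n), U.card = m + 1 ∧ (∀ u v, T.Adj u v → u ∈ U) ∧
          (T.induce (U : Set (Fin n))).IsTree) ∧
        ∃ i : Fin 2, ∀ e ∈ T.edgeSet, c' e = i})
    ≤ Set.ncard {T : SimpleGraph (Fin n) |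
        (∃ U : Finset (Fin n), U.card = m + 1 ∧ (∀ u v, T.Adj u v → u ∈ U) ∧
          (T.induce (U : Set (Fin n))).IsTree) ∧
        ∑ᶠ e ∈ T.edgeSet, c e = 0} := by
  obtain ⟨ε, hε, n0, h⟩ := Pool.Agent.MP5g.local_all m hm
  refine ⟨ε, hε, n0, ?_⟩
  intro n hn c a b hab hc
  have := h n hn c a b hab (by convert hc)
  exact this

end Pool.Agent.Results.MP_5f2667_co.NearTwoColoured
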