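import Mathlib
import Pool.Agent.MP_5f2667_co.Final

set_option autoImplicit false

namespace Pool.Agent.Results.MP_5f2667_co.ThreeEdgeTrees

/-- For `m = 3` and every `n` the least number of zero-sum trees with three edges and the least number
of monochromatic trees with three edges (both stated as in the frozen statement) have the same value,
which is given explicitly. -/
theorem result : ∀ n : ℕ, ∃ v : ℕ,
    (⨅ c : Sym2 (Fin n) → ZMod 3,
      Set.ncard {T : SimpleGraph (Fin n) |
        (∃ U : Finset (Fin n), U.card = 3 + 1 ∧ (∀ u v, T.Adj u v → u ∈ U) ∧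
          (T.induce (U : Set (Fin n))).IsTree) ∧
        ∑ᶠ e ∈ T.edgeSet, c e = 0}) = v ∧
    (⨅ c : Sym2 (Fin n) → Fin 2,
      Set.ncard {T : SimpleGraph (Fin n) |
        (∃ U : Finset (Fin n), U.card = 3 + 1 ∧ (∀ u v, T.Adj u v → u ∈ U) ∧
          (T.induce (U : Set (Fin n))).IsTree) ∧
        ∃ i : Fin 2, ∀ e ∈ T.edgeSet, c e = i}) = v ∧
    24 * (v : ℤ) =
      if n ≤ 3 then 0 else if n = 4 then 24 else
      (n : ℤ) * (n - 1) * (4 * (n : ℤ) ^ 2 - 29 * n + 57) +
        (if n % 4 = 1 then 0 else if n % 4 = 3 then 36 * (n : ℤ) - 144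
          else if n % 4 = 0 then 3 * (n : ℤ) * (3 * n - 13) else 3 * (n : ℤ) * (3 * n - 13) + 12) := by
  intro n
  refine ⟨⨅ c : Sym2 (Fin n) → Fin 2, Pool.Agent.MP5f.mono c, Pool.Agent.MP5f.iInf_eq n, rfl, ?_⟩
  by_cases h3 : n ≤ 3
  · rw [if_pos h3]
    have : (⨅ c : Sym2 (Fin n) → Fin 2, Pool.Agent.MP5f.mono c) = 0 := by
      apply Nat.eq_zero_of_le_zero
      exact (ciInf_le (OrderBot.bddBelow _) (fun _ => 0)).trans (Pool.Agent.MP5f.tiny h3 _).le
    rw [this]
    rfl
  rw [if_neg h3]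
  by_cases h4 : n = 4
  · subst h4
    rw [if_pos rfl]
    have : (⨅ c : Sym2 (Fin 4) → Fin 2, Pool.Agent.MP5f.mono c) = 1 := by
      apply le_antisymm
      · obtain ⟨c, hc⟩ := Pool.Agent.MP5f.four_mono
        exact (ciInf_le (OrderBot.bddBelow _) c).trans hc.le
      · apply le_ciInf
        intro c
        rw [Pool.Agent.MP5f.mono_eq]
        exact Pool.Agent.MP5f.four _
    rw [this]
    rfl
  rw [if_neg h4]
  have hn : 5 ≤ n := by omega
  have h := Pool.Agent.MP5f.value hn
  generalize (⨅ c : Sym2 (Fin n) → Fin 2, Pool.Agent.MP5f.mono c : ℕ) = v at h ⊢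
  have key : ((24 * (v : ℤ) : ℤ) : ℝ) = (((n : ℤ) * (n - 1) * (4 * (n : ℤ) ^ 2 - 29 * n + 57) +
        (if n % 4 = 1 then 0 else if n % 4 = 3 then 36 * (n : ℤ) - 144
          else if n % 4 = 0 then 3 * (n : ℤ) * (3 * n - 13) else 3 * (n : ℤ) * (3 * n - 13) + 12) : ℤ) : ℝ) := by
    rw [Int.cast_mul, Int.cast_natCast, h]
    unfold Pool.Agent.MP5f.Cn Pool.Agent.MP5f.Par
    have hmod : n % 4 = 0 ∨ n % 4 = 1 ∨ n % 4 = 2 ∨ n % 4 = 3 := by omega
    rcases hmod with hm | hm | hm | hm
    · rw [if_neg (by omega), if_neg (by omega), if_pos hm, if_neg (by omega), if_neg (by omega), if_pos hm]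
      push_cast
      ring
    · rw [if_pos hm, if_pos hm]
      push_cast
      ring
    · rw [if_neg (by omega), if_neg (by omega), if_neg (by omega), if_neg (by omega), if_neg (by omega),
        if_neg (by omega)]
      push_cast
      ring
    · rw [if_neg (by omega), if_pos hm, if_neg (by omega), if_pos hm]
      push_cast
      ring
  exact_mod_cast key

end Pool.Agent.Results.MP_5f2667_co.ThreeEdgeTrees
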